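import Mathlib
import Pool.Agent.H84.WPS
import Pool.Agent.H84.LineLimit

/-!
# Cyclic covers of projective space that are not hyperbolic

Let `F` be any form of degree `r m` on `P^N` and let `X ⊆ P(1, …, 1, m)` be the cyclic cover
`w ^ r = F(x)` of `P^N` (`K_X = O((r - 1) m - N - 1)` if `X` is smooth).

* If `(r - 1) m < 2 N`, then there is a line on which `F` is `q ^ r l₁ l₂ ^ (r - 1)`; so `X`
  contains a rational curve.
* If `r ∈ {2, 3}` and `(r - 1) m ≤ 2 N`, then there is a line on which `F` is the product of an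
  `r`-th power and a form `g` of degree `4` (`r = 2`), `3` (`r = 3`); the curve in `X` over this
  line is the image of the curve `y ^ r = g`, whose components have genus at most one.
* In both cases there is a non-constant entire curve in `X`.

So these `X` are not hyperbolic and contain subvarieties that are not of general type.
-/

set_option autoImplicit false

open Filter Topology

namespace Pool.Agent.Results.MP_c6ff8d_ag.CyclicCoversPN

open Pool.Agent.H84 Pool.Agent.H84.WPS Pool.Agent.H6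

/-- The cyclic cover `X = {w ^ r = F(x)}` of `P^N`. -/
def cover {N : ℕ} (m r : ℕ) (F : MvPolynomial (Fin (N + 1)) ℂ) : Set (WPSpace N m) :=
  {P | ∃ x w h, P = point m x w h ∧ w ^ r = MvPolynomial.eval x F}

/-- Every holomorphic map from `ℂ` to `X` is constant. -/
def IsBrodyHyperbolic {N m : ℕ} (X : Set (WPSpace N m)) : Prop :=
  ∀ f : ℂ → WPSpace N m, (∀ z, HolomorphicAt f z) → (∀ z, f z ∈ X) → ∀ z y, f z = f y

/-- A curve of genus at most one in `X = {w ^ r = F(x)}`, over a rational curve in `P^N`: there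
are polynomials `X_0(z), …, X_N(z)` without common zero, not all proportional to constants, and
polynomials `q`, `g` with `deg g ≤ b` and `F(X_0(z), …, X_N(z)) = q(z) ^ r g(z)`.  So
`(z, y) ↦ [X_0(z) : … : X_N(z) : q(z) y]` is a non-constant algebraic map from the curve
`y ^ r = g(z)` to `X`.  The components of this curve have geometric genus at most one if `b = 0`,
or `r = 2` and `b = 4`, or `r = 3` and `b = 3`. -/
def HasCurve {N : ℕ} (r b : ℕ) (F : MvPolynomial (Fin (N + 1)) ℂ) : Prop :=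
  ∃ (X : Fin (N + 1) → Polynomial ℂ) (q g : Polynomial ℂ),
    (∀ z, (fun j => (X j).eval z) ≠ 0) ∧
    (∃ z₁ z₂, ∀ c : ℂ, (fun j => (X j).eval z₁) ≠ c • (fun j => (X j).eval z₂)) ∧
    g.natDegree ≤ b ∧
    ∀ z, MvPolynomial.eval (fun j => (X j).eval z) F = q.eval z ^ r * g.eval z

/-- `X = {w ^ r = F(x)}` contains a rational curve: there is a non-constant map
`z ↦ [X_0(z) : … : X_N(z) : W(z)]` from the affine line to `X` given by polynomials such that
`X_0, …, X_N` have no common zero. -/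
def HasRationalCurve {N : ℕ} (r : ℕ) (F : MvPolynomial (Fin (N + 1)) ℂ) : Prop :=
  ∃ (X : Fin (N + 1) → Polynomial ℂ) (W : Polynomial ℂ),
    (∀ z, (fun j => (X j).eval z) ≠ 0) ∧
    (∀ z, W.eval z ^ r = MvPolynomial.eval (fun j => (X j).eval z) F) ∧
    ∃ z₁ z₂, ∀ c : ℂ, (fun j => (X j).eval z₁) ≠ c • (fun j => (X j).eval z₂)

lemma HasRationalCurve.hasCurve {N r : ℕ} {F : MvPolynomial (Fin (N + 1)) ℂ}
    (h : HasRationalCurve r F) (b : ℕ) : HasCurve r b F := by
  obtain ⟨X, W, h0, hW, hne⟩ := h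
  exact ⟨X, W, 1, h0, hne, by simp, fun z => by rw [← hW, Polynomial.eval_one, mul_one]⟩

lemma frame_indep {n : ℕ} (ξ η : Fin n → ℂ) (α β : ℂ)
    (h : α • (fx ξ : Fin (n + 2) → ℂ) + β • fv η = 0) : α = 0 ∧ β = 0 := by
  have h0 := congrFun h 0
  have h1 := congrFun h 1
  simp [fx, fv] at h0 h1
  exact ⟨h0, h1⟩

lemma onLine_pencil {N : ℕ} (x v : Fin N → ℂ) (c : ℂ) (F₀ F : MvPolynomial (Fin N) ℂ) :
    onLine x v ((1 - c) • F₀ + c • F) = (1 - c) • onLine x v F₀ + c • onLine x v F := by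
  unfold onLine
  rw [map_add, map_smul, map_smul]

lemma homog_pencil {N D : ℕ} {F₀ F : MvPolynomial (Fin N) ℂ} (h₀ : F₀.IsHomogeneous D)
    (h : F.IsHomogeneous D) (c : ℂ) : ((1 - c) • F₀ + c • F).IsHomogeneous D :=
  ((MvPolynomial.homogeneousSubmodule (Fin N) ℂ D).add_mem
    ((MvPolynomial.homogeneousSubmodule (Fin N) ℂ D).smul_mem (1 - c) h₀)
    ((MvPolynomial.homogeneousSubmodule (Fin N) ℂ D).smul_mem c h))

/-- Existence of a line on which `F` is `q ^ r g`. -/
lemma good_B {n r a b : ℕ} (hr : 1 ≤ r) (hn : (r - 1) * a ≤ 2 * n)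
    (F : MvPolynomial (Fin (n + 2)) ℂ) (hF : F.IsHomogeneous (r * a + b)) :
    Good r a b 0 0 F := by
  refine good_of_countable (F₀ := specialForm n (r * a + b) ((r - 1) * a)
    (Polynomial.X ^ (r * a))) ?_
  refine (countable_familyB hr hn F hF.totalDegree_le).mono ?_
  intro c hc hcon
  apply hc
  obtain ⟨ξ, η, q, g, hq, hq0, hg, h⟩ := hcon
  have hδ : (r - 1) * a ≤ r * a + b := by
    have : (r - 1) * a ≤ r * a := Nat.mul_le_mul_right _ (Nat.sub_le _ _)
    omega
  refine good_of_line (g₂ := 1) ?_ (fx ξ) (fv η) (frame_indep ξ η) q g hq hg (by simp) ?_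
  · rw [zero_mul, add_zero]
    exact homog_pencil (isHomogeneous_specialForm hδ _) hF c
  · rw [onLine_pencil, h, pow_zero, mul_one]

/-- Existence of a line on which `F` is `q ^ r l₁ l₂ ^ (r - 1)`, `r = s + 2`. -/
lemma good_A {n s a : ℕ} (hn : (s + 1) * a + s ≤ 2 * n)
    (F : MvPolynomial (Fin (n + 2)) ℂ) (hF : F.IsHomogeneous ((s + 2) * a + (s + 2))) :
    Good (s + 2) a 1 1 (s + 1) F := by
  refine good_of_countable (F₀ := specialForm n ((s + 2) * a + (s + 2)) ((s + 1) * a + s)
    (Polynomial.X ^ ((s + 2) * a) * (Polynomial.X - 1) ^ (s + 1))) ?_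
  refine (countable_familyA hn F hF.totalDegree_le).mono ?_
  intro c hc hcon
  apply hc
  obtain ⟨ξ, η, q, l₁, l₂, hq, hq0, hl₁, hl₂, hl₂0, h⟩ := hcon
  have hδ : (s + 1) * a + s ≤ (s + 2) * a + (s + 2) := by nlinarith
  refine good_of_line ?_ (fx ξ) (fv η) (frame_indep ξ η) q l₁ l₂ hq hl₁ hl₂ ?_
  · rw [show (s + 2) * a + 1 + (s + 1) * 1 = (s + 2) * a + (s + 2) by ring]
    exact homog_pencil (isHomogeneous_specialForm hδ _) hF c
  · rw [onLine_pencil, h]

/-- The polynomial `z ↦ hform d Q (S z) (T z)`. -/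
noncomputable def hpoly (d : ℕ) (Q S T : Polynomial ℂ) : Polynomial ℂ :=
  ∑ i ∈ Finset.range (d + 1), Polynomial.C (Q.coeff i) * S ^ i * T ^ (d - i)

lemma eval_hpoly (d : ℕ) (Q S T : Polynomial ℂ) (z : ℂ) :
    (hpoly d Q S T).eval z = hform d Q (S.eval z) (T.eval z) := by
  unfold hpoly hform
  rw [Polynomial.eval_finsetSum]
  simp

lemma exists_root {r : ℕ} (hr : r ≠ 0) (ν : ℂ) : ∃ c : ℂ, c ^ r = ν := by
  exact IsAlgClosed.exists_pow_nat_eq ν (Nat.pos_of_ne_zero hr)

lemma hform_deg_one {Q : Polynomial ℂ} (s t : ℂ) :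
    hform 1 Q s t = Q.coeff 0 * t + Q.coeff 1 * s := by
  unfold hform
  rw [Finset.sum_range_succ, Finset.sum_range_one]
  simp

/-- The rational curve over a good line. -/
lemma rational_of_good {N s a : ℕ} {F : MvPolynomial (Fin (N + 1)) ℂ}
    (h : Good (s + 2) a 1 1 (s + 1) F) : HasRationalCurve (s + 2) F := by
  obtain ⟨x, v, q, g₁, g₂, ν, hind, hq0, hg₁0, hg₂0, hq, hg₁, hg₂, hF⟩ := line_of_good h
  simp only [hform_deg_one] at hF
  have hcoef : ∀ g : Polynomial ℂ, g ≠ 0 → g.natDegree ≤ 1 →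
      ¬ (g.coeff 0 = 0 ∧ g.coeff 1 = 0) := by
    rintro g hg hgd ⟨h0, h1⟩
    apply hg
    ext i
    rcases i with _ | _ | i
    · simpa using h0
    · simpa using h1
    · rw [Polynomial.coeff_zero]
      exact Polynomial.coeff_eq_zero_of_natDegree_lt (by omega)
  -- curve from polynomial parametrisation of the line
  have key : ∀ (S T : Polynomial ℂ) (W : Polynomial ℂ),
      (∀ z, S.eval z ≠ 0 ∨ T.eval z ≠ 0) →
      (∀ z, W.eval z ^ (s + 2) = MvPolynomial.eval (T.eval z • x + S.eval z • v) F) →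
      (∃ z₁ z₂, ∀ c : ℂ, ¬ (S.eval z₁ = c * S.eval z₂ ∧ T.eval z₁ = c * T.eval z₂)) →
      HasRationalCurve (s + 2) F := by
    intro S T W h0 hW hne
    have hX : ∀ z, (fun j => (Polynomial.C (x j) * T + Polynomial.C (v j) * S).eval z) =
        T.eval z • x + S.eval z • v := by
      intro z
      funext j
      simp only [Polynomial.eval_add, Polynomial.eval_mul, Polynomial.eval_C, Pi.add_apply,
        Pi.smul_apply, smul_eq_mul]
      ring
    refine ⟨fun j => Polynomial.C (x j) * T + Polynomial.C (v j) * S, W, ?_, ?_, ?_⟩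
    · intro z hz
      rw [hX] at hz
      have := hind _ _ hz
      rcases h0 z with h | h
      · exact h this.2
      · exact h this.1
    · intro z
      rw [hX, hW]
    · obtain ⟨z₁, z₂, h12⟩ := hne
      refine ⟨z₁, z₂, fun c hc => h12 c ?_⟩
      rw [hX, hX] at hc
      have h3 : (T.eval z₁ - c * T.eval z₂) • x + (S.eval z₁ - c * S.eval z₂) • v = 0 := by
        have h4 : (T.eval z₁ - c * T.eval z₂) • x + (S.eval z₁ - c * S.eval z₂) • v =
            (T.eval z₁ • x + S.eval z₁ • v) - c • (T.eval z₂ • x + S.eval z₂ • v) := by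
          module
        rw [h4, hc, sub_self]
      have h5 := hind _ _ h3
      exact ⟨sub_eq_zero.mp h5.2, sub_eq_zero.mp h5.1⟩
  set α₁ := g₁.coeff 0
  set β₁ := g₁.coeff 1
  set α₂ := g₂.coeff 0
  set β₂ := g₂.coeff 1
  obtain ⟨ν', hν'⟩ := exists_root (r := s + 2) (by omega) ν
  by_cases hdet : β₁ * α₂ - α₁ * β₂ = 0
  · -- proportional factors
    obtain ⟨c, hc1, hc2⟩ : ∃ c : ℂ, α₁ = c * α₂ ∧ β₁ = c * β₂ := by
      by_cases hα : α₂ = 0
      · have hβ : β₂ ≠ 0 := fun hβ => hcoef g₂ hg₂0 hg₂ ⟨hα, hβ⟩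
        refine ⟨β₁ / β₂, ?_, ?_⟩
        · rw [hα, mul_zero]
          rw [hα, mul_zero, zero_sub, neg_eq_zero] at hdet
          exact (mul_eq_zero.mp hdet).resolve_right hβ
        · field_simp
      · refine ⟨α₁ / α₂, by field_simp, ?_⟩
        field_simp
        linear_combination hdet
    obtain ⟨c', hc'⟩ := exists_root (r := s + 2) (by omega) c
    refine key Polynomial.X 1 (Polynomial.C (ν' * c') * hpoly a q Polynomial.X 1 *
      (Polynomial.C α₂ + Polynomial.C β₂ * Polynomial.X)) ?_ ?_ ?_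
    · intro z
      right
      simp
    · intro z
      rw [hF, Polynomial.eval_mul, Polynomial.eval_mul, eval_hpoly]
      simp only [Polynomial.eval_C, Polynomial.eval_X, Polynomial.eval_one, Polynomial.eval_add,
        Polynomial.eval_mul, mul_one]
      rw [hc1, hc2, mul_pow, mul_pow, mul_pow, hν', hc']
      ring
    · refine ⟨0, 1, fun c hc => ?_⟩
      simp only [Polynomial.eval_X, Polynomial.eval_one, mul_one] at hc
      rw [← hc.1] at hc
      exact one_ne_zero hc.2
  · -- independent factors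
    set Δ := β₁ * α₂ - α₁ * β₂ with hΔ
    refine key (Polynomial.C Δ⁻¹ * (Polynomial.C α₂ * Polynomial.X ^ (s + 2) - Polynomial.C α₁))
      (Polynomial.C Δ⁻¹ * (Polynomial.C β₁ - Polynomial.C β₂ * Polynomial.X ^ (s + 2)))
      (Polynomial.C ν' * hpoly a q
        (Polynomial.C Δ⁻¹ * (Polynomial.C α₂ * Polynomial.X ^ (s + 2) - Polynomial.C α₁))
        (Polynomial.C Δ⁻¹ * (Polynomial.C β₁ - Polynomial.C β₂ * Polynomial.X ^ (s + 2))) *
        Polynomial.X) ?_ ?_ ?_
    · intro z
      by_contra hcon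
      push Not at hcon
      obtain ⟨h1, h2⟩ := hcon
      simp only [Polynomial.eval_mul, Polynomial.eval_C, Polynomial.eval_sub,
        Polynomial.eval_pow, Polynomial.eval_X] at h1 h2
      have h3 : Δ⁻¹ * Δ = 1 := inv_mul_cancel₀ hdet
      have h4 : (1 : ℂ) = β₂ * (Δ⁻¹ * (α₂ * z ^ (s + 2) - α₁)) +
          α₂ * (Δ⁻¹ * (β₁ - β₂ * z ^ (s + 2))) := by
        rw [← h3, hΔ]
        ring
      rw [h1, h2] at h4
      simp at h4
    · intro z
      rw [hF, Polynomial.eval_mul, Polynomial.eval_mul, eval_hpoly]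
      simp only [Polynomial.eval_C, Polynomial.eval_X, Polynomial.eval_sub, Polynomial.eval_pow,
        Polynomial.eval_mul]
      have h1 : α₁ * (Δ⁻¹ * (β₁ - β₂ * z ^ (s + 2))) +
          β₁ * (Δ⁻¹ * (α₂ * z ^ (s + 2) - α₁)) = z ^ (s + 2) := by
        have h3 : Δ⁻¹ * Δ = 1 := inv_mul_cancel₀ hdet
        have h4 : α₁ * (Δ⁻¹ * (β₁ - β₂ * z ^ (s + 2))) +
          β₁ * (Δ⁻¹ * (α₂ * z ^ (s + 2) - α₁)) = (Δ⁻¹ * Δ) * z ^ (s + 2) := by
          rw [hΔ]
          ring
        rw [h4, h3, one_mul]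
      have h2 : α₂ * (Δ⁻¹ * (β₁ - β₂ * z ^ (s + 2))) +
          β₂ * (Δ⁻¹ * (α₂ * z ^ (s + 2) - α₁)) = 1 := by
        have h3 : Δ⁻¹ * Δ = 1 := inv_mul_cancel₀ hdet
        rw [← h3, hΔ]
        ring
      rw [h1, h2, one_pow, mul_one, mul_pow, mul_pow, hν']
      ring
    · refine ⟨1, 0, fun c hc => ?_⟩
      obtain ⟨h1, h2⟩ := hc
      simp only [Polynomial.eval_mul, Polynomial.eval_C, Polynomial.eval_sub,
        Polynomial.eval_pow, Polynomial.eval_X, one_pow, mul_one, ne_eq, Nat.add_eq_zero_iff,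
        OfNat.ofNat_ne_zero, and_false, not_false_eq_true, zero_pow, mul_zero, zero_sub,
        sub_zero] at h1 h2
      have h3 : Δ⁻¹ * Δ = 1 := inv_mul_cancel₀ hdet
      have h4 : α₁ * (Δ⁻¹ * (β₁ - β₂)) + β₁ * (Δ⁻¹ * (α₂ - α₁)) = 1 := by
        rw [← h3, hΔ]
        ring
      rw [h1, h2] at h4
      have h5 : α₁ * (c * (Δ⁻¹ * β₁)) + β₁ * (c * (Δ⁻¹ * -α₁)) = 0 := by ring
      rw [h5] at h4
      exact zero_ne_one h4

/-- Rational curves make `X` non-hyperbolic. -/
lemma not_hyperbolic_of_rational {N m r : ℕ} {F : MvPolynomial (Fin (N + 1)) ℂ}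
    (h : HasRationalCurve r F) : ¬ IsBrodyHyperbolic (cover m r F) := by
  obtain ⟨X, W, h0, hW, z₁, z₂, hne⟩ := h
  intro hyp
  have h1 := hyp (fun z => point m (fun j => (X j).eval z) (W.eval z) (pair_ne (h0 z))) ?_ ?_ z₂ z₁
  · rw [point_eq_iff] at h1
    obtain ⟨a, -, h2, -⟩ := h1
    exact hne a h2
  · intro z
    refine ⟨fun y => (fun j => (X j).eval y, W.eval y), ?_, ?_⟩
    · have hp : ∀ P : Polynomial ℂ, AnalyticAt ℂ (fun y : ℂ => P.eval y) z := fun P =>
        (P.differentiable.differentiableOn (s := Set.univ)).analyticAt Filter.univ_mem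
      exact (AnalyticAt.pi fun j => hp (X j)).prod (hp W)
    · exact Filter.Eventually.of_forall fun y => ⟨pair_ne (h0 y), rfl⟩
  · intro z
    exact ⟨_, _, pair_ne (h0 z), rfl, hW z⟩

/-- The line of a good form. -/
lemma hasCurve_of_good {N r a b : ℕ} {F : MvPolynomial (Fin (N + 1)) ℂ}
    (h : Good r a b 0 0 F) : HasCurve r b F := by
  obtain ⟨x, v, q, g₁, g₂, ν, hind, hq0, hg₁0, hg₂0, hq, hg₁, hg₂, hF⟩ := line_of_good h
  have hX : ∀ z, (fun j => (Polynomial.C (x j) + Polynomial.C (v j) * Polynomial.X).eval z) =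
      (1 : ℂ) • x + z • v := by
    intro z
    funext j
    simp
    ring
  refine ⟨fun j => Polynomial.C (x j) + Polynomial.C (v j) * Polynomial.X, q,
    Polynomial.C ν * g₁, ?_, ⟨0, 1, ?_⟩, (Polynomial.natDegree_C_mul_le _ _).trans hg₁,
    fun t => ?_⟩
  · intro z hz
    rw [hX] at hz
    exact one_ne_zero (hind _ _ hz).1
  · intro c hc
    rw [hX, hX] at hc
    have h3 : (1 - c) • x + (-c) • v = 0 := by
      have h6 : (1 - c) • x + (-c) • v =
          ((1 : ℂ) • x + (0 : ℂ) • v) - c • ((1 : ℂ) • x + (1 : ℂ) • v) := by module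
      rw [h6, hc, sub_self]
    have h7 := hind _ _ h3
    have h8 : c = 0 := by
      have := h7.2
      rwa [neg_eq_zero] at this
    rw [h8, sub_zero] at h7
    exact one_ne_zero h7.1
  · have h1 := hF t 1
    rw [hform_one hq, hform_one hg₁, pow_zero, mul_one] at h1
    rw [hX, h1, Polynomial.eval_mul, Polynomial.eval_C]
    ring

/-- The entire curve over a good line. -/
lemma not_hyperbolic_of_good {N m r κ p : ℕ} {F : MvPolynomial (Fin (N + 1)) ℂ}
    (hp : p + 1 = r) (hκp : κ * p = 2) (hκm : κ ≤ m) (hF : F.IsHomogeneous (r * m))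
    (hrm : r * (m - κ) + (κ + 2) = r * m)
    (h : Good r (m - κ) (κ + 2) 0 0 F) : ¬ IsBrodyHyperbolic (cover m r F) := by
  obtain ⟨x, v, q, g₁, g₂, ν, hind, hq0, hg₁0, hg₂0, hq, hg₁, hg₂, hFl⟩ := line_of_good h
  have hr0 : r ≠ 0 := by omega
  have hFl' : ∀ s t : ℂ, MvPolynomial.eval (t • x + s • v) F =
      ν * (hform (m - κ) q s t ^ r * hform (κ + 2) g₁ s t) := by
    intro s t
    rw [hFl, pow_zero, mul_one]
  by_cases hν : ν = 0
  · -- the line lies in the branch locus
    refine not_hyperbolic_of_rational ⟨fun j => Polynomial.C (x j) + Polynomial.C (v j) *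
      Polynomial.X, 0, ?_, ?_, 0, 1, ?_⟩
    · intro z hz
      have h1 : (1 : ℂ) • x + z • v = 0 := by
        rw [← hz]
        funext j
        simp
        ring
      exact one_ne_zero (hind _ _ h1).1
    · intro z
      have h1 : (fun j => (Polynomial.C (x j) + Polynomial.C (v j) * Polynomial.X).eval z) =
          (1 : ℂ) • x + z • v := by
        funext j
        simp
        ring
      rw [h1, hFl', hν, zero_mul, Polynomial.eval_zero, zero_pow hr0]
    · intro c hc
      have h3 : (1 - c) • x + (-c) • v = 0 := by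
        have h4 : (fun j => (Polynomial.C (x j) + Polynomial.C (v j) * Polynomial.X).eval 0) = x := by
          funext j
          simp
        have h5 : (fun j => (Polynomial.C (x j) + Polynomial.C (v j) * Polynomial.X).eval 1) =
            x + v := by
          funext j
          simp
        rw [h4, h5] at hc
        have h6 : (1 - c) • x + (-c) • v = x - c • (x + v) := by module
        rw [h6, ← hc, sub_self]
      have h7 := hind _ _ h3
      have h8 : c = 0 := by
        have := h7.2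
        rwa [neg_eq_zero] at this
      rw [h8, sub_zero] at h7
      exact one_ne_zero h7.1
  · -- a base point outside the branch locus
    have hprod : q * g₁ ≠ 0 := mul_ne_zero hq0 hg₁0
    obtain ⟨s₀, hs₀⟩ : ∃ s₀ : ℂ, (q * g₁).eval s₀ ≠ 0 := by
      by_contra hcon
      push Not at hcon
      apply hprod
      apply Polynomial.funext
      intro s
      rw [hcon s, Polynomial.eval_zero]
    rw [Polynomial.eval_mul] at hs₀
    have hqs : q.eval s₀ ≠ 0 := left_ne_zero_of_mul hs₀
    have hgs : g₁.eval s₀ ≠ 0 := right_ne_zero_of_mul hs₀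
    obtain ⟨q', hq'd, hq'⟩ := exists_subst (m - κ) q 1 s₀ 0 1
    obtain ⟨g', hg'd, hg'⟩ := exists_subst (κ + 2) g₁ 1 s₀ 0 1
    have hq'0 : q'.eval 0 = q.eval s₀ := by
      rw [← hform_one hq'd, hq', ← hform_one hq]
      congr 1 <;> ring
    have hg'0 : g'.eval 0 = g₁.eval s₀ := by
      rw [← hform_one hg'd, hg', ← hform_one hg₁]
      congr 1 <;> ring
    set x' := x + s₀ • v with hx'
    set Q := Polynomial.C (q.eval s₀)⁻¹ * q' with hQ
    set G := Polynomial.C (ν * q.eval s₀ ^ r) * g' with hG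
    have hQd : Q.natDegree ≤ m - κ := (Polynomial.natDegree_C_mul_le _ _).trans hq'd
    have hGd : G.natDegree ≤ κ + 2 := (Polynomial.natDegree_C_mul_le _ _).trans hg'd
    have hline : ∀ t : ℂ, MvPolynomial.eval (x' + t • v) F = Q.eval t ^ r * G.eval t := by
      intro t
      have h1 : x' + t • v = (1 : ℂ) • x + (s₀ + t) • v := by
        rw [hx']
        module
      have h2 : hform (m - κ) q (s₀ + t) 1 = q'.eval t := by
        rw [← hform_one hq'd, hq']
        congr 1 <;> ring
      have h3 : hform (κ + 2) g₁ (s₀ + t) 1 = g'.eval t := by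
        rw [← hform_one hg'd, hg']
        congr 1 <;> ring
      rw [h1, hFl', h2, h3, hQ, hG, Polynomial.eval_mul, Polynomial.eval_mul, Polynomial.eval_C,
        Polynomial.eval_C, mul_pow, inv_pow]
      have h4 : q.eval s₀ ^ r ≠ 0 := pow_ne_zero _ hqs
      field_simp
    have hindep : ∀ α β : ℂ, α • x' + β • v = 0 → α = 0 ∧ β = 0 := by
      intro α β hαβ
      have h1 : α • x + (α * s₀ + β) • v = 0 := by
        rw [← hαβ, hx']
        module
      have h2 := hind _ _ h1
      refine ⟨h2.1, ?_⟩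
      have h3 := h2.2
      rwa [h2.1, zero_mul, zero_add] at h3
    have hFx' : MvPolynomial.eval x' F ≠ 0 := by
      have h1 := hline 0
      rw [zero_smul, add_zero] at h1
      rw [h1, hQ, hG, Polynomial.eval_mul, Polynomial.eval_mul, hq'0, hg'0, Polynomial.eval_C,
        Polynomial.eval_C]
      exact mul_ne_zero (pow_ne_zero _ (mul_ne_zero (inv_ne_zero hqs) hqs))
        (mul_ne_zero (mul_ne_zero hν (pow_ne_zero _ hqs)) hgs)
    have hQ0 : Q.eval 0 = 1 := by
      rw [hQ, Polynomial.eval_mul, Polynomial.eval_C, hq'0, inv_mul_cancel₀ hqs]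
    have hrev : ∀ s : ℂ, MvPolynomial.eval (s • x' + v) F =
        (Q.reflect (m - κ)).eval s ^ r * (G.reflect (κ + 2)).eval s := by
      have hne : ∀ s : ℂ, s ≠ 0 → MvPolynomial.eval (s • x' + v) F =
          (Q.reflect (m - κ)).eval s ^ r * (G.reflect (κ + 2)).eval s := by
        intro s hs
        have h1 : s • x' + v = s • (x' + s⁻¹ • v) := by
          rw [smul_add s x' (s⁻¹ • v), smul_smul s s⁻¹ v, mul_inv_cancel₀ hs, one_smul]
        rw [h1, eval_smul_homogeneous hF, hline, eval_reflect hQd hs, eval_reflect hGd hs,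
          ← hrm, mul_pow, ← pow_mul, pow_add, mul_comm (m - κ) r]
        ring
      refine eq_of_ne (f := fun s => MvPolynomial.eval (s • x' + v) F) (g := fun s =>
        (Q.reflect (m - κ)).eval s ^ r * (G.reflect (κ + 2)).eval s) ?_ ?_ hne
      · have h1 : Continuous (fun s : ℂ => s • x' + v) := by fun_prop
        exact (MvPolynomial.continuous_eval F).comp h1
      · fun_prop
    have hL : LineData r m κ (fun i : Fin 0 => (i.elim0 : MvPolynomial (Fin (N + 1)) ℂ))
        F x' v Q G :=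
      { indep := hindep
        degq := hQd
        degg := hGd
        q0 := hQ0
        g0 := by
          have h1 := hline 0
          rw [zero_smul, add_zero, hQ0, one_pow, one_mul] at h1
          exact h1.symm
        zeroG := fun i => i.elim0
        evalF := hline
        evalF' := hrev }
    have hx'0 : x' ≠ 0 := by
      intro h0
      have := hindep 1 0 (by rw [h0]; simp)
      exact one_ne_zero this.1
    obtain ⟨w, hw⟩ := exists_root hr0 (MvPolynomial.eval x' F)
    obtain ⟨f, hf1, hf2, hf3, ζ, y, u, hy, hζ, hζ1, hζ2⟩ :=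
      exists_entire_of_lineData hL hp hκp hκm w hx'0 hw hFx'
    intro hyp
    apply hζ2
    apply hyp f hf1
    intro z
    obtain ⟨X, W, h1, h2, -, h3⟩ := hf2 z
    exact ⟨X, W, h1, h2, h3⟩

/-- **Theorem.**  Let `m ≥ 1`, `r ≥ 2` and let `F` be any form of degree `r m` in `N + 1`
variables.  Let `X ⊆ P(1, …, 1, m)` be the cyclic cover `w ^ r = F(x)` of `P^N`; if `X` is smooth,
then `K_X = O((r - 1) m - N - 1)`.  Suppose that `(r - 1) m < 2 N` (`K_X ≤ O(dim X - 2)`), or that
`r = 2`, `m ≤ 2 N`, or `r = 3`, `2 m ≤ 2 N` (`K_X ≤ O(dim X - 1)`).  Then `X` contains a curve of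
genus at most one, and `X` is not (Brody) hyperbolic. -/
theorem result (N m r : ℕ) (hm : 1 ≤ m) (hr : 2 ≤ r) (F : MvPolynomial (Fin (N + 1)) ℂ)
    (hF : F.IsHomogeneous (r * m))
    (h : (r - 1) * m < 2 * N ∨ (r = 2 ∧ m ≤ 2 * N) ∨ (r = 3 ∧ m ≤ N)) :
    HasCurve r (if r = 2 then 4 else if r = 3 then 3 else 0) F ∧
      ¬ IsBrodyHyperbolic (cover m r F) := by
  have hA : (r - 1) * m < 2 * N → HasRationalCurve r F := by
    intro h
    obtain ⟨s, rfl⟩ : ∃ s, r = s + 2 := ⟨r - 2, by omega⟩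
    obtain ⟨a, rfl⟩ : ∃ a, m = a + 1 := ⟨m - 1, by omega⟩
    obtain ⟨n, rfl⟩ : ∃ n, N = n + 1 := ⟨N - 1, by omega⟩
    have h1 : (s + 2 - 1) * (a + 1) = (s + 1) * a + s + 1 := by
      rw [show s + 2 - 1 = s + 1 by omega]
      ring
    apply rational_of_good (a := a)
    apply good_A
    · omega
    · rw [show (s + 2) * a + (s + 2) = (s + 2) * (a + 1) by ring]
      exact hF
  rcases h with h | ⟨rfl, h⟩ | ⟨rfl, h⟩
  · exact ⟨(hA h).hasCurve _, not_hyperbolic_of_rational (hA h)⟩
  · by_cases hm2 : 2 ≤ m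
    · have hB2 : Good 2 (m - 2) 4 0 0 F := by
        obtain ⟨n, rfl⟩ : ∃ n, N = n + 1 := ⟨N - 1, by omega⟩
        apply good_B (by omega) (by omega)
        rw [show 2 * (m - 2) + 4 = 2 * m by omega]
        exact hF
      exact ⟨hasCurve_of_good hB2,
        not_hyperbolic_of_good (p := 1) (κ := 2) rfl rfl hm2 hF (by omega) hB2⟩
    · have h1 := hA (by omega)
      exact ⟨h1.hasCurve _, not_hyperbolic_of_rational h1⟩
  · have hB3 : Good 3 (m - 1) 3 0 0 F := by
      obtain ⟨n, rfl⟩ : ∃ n, N = n + 1 := ⟨N - 1, by omega⟩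
      apply good_B (by omega) (by omega)
      rw [show 3 * (m - 1) + 3 = 3 * m by omega]
      exact hF
    exact ⟨hasCurve_of_good hB3,
      not_hyperbolic_of_good (p := 2) (κ := 1) rfl rfl hm hF (by omega) hB3⟩

end Pool.Agent.Results.MP_c6ff8d_ag.CyclicCoversPN
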